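import Pool.Agent.H17BP.Germ
import Pool.Agent.H22.HF.Div

/-!
# MW Ord2: the initial form of a germ in two variables and the blow-up

`ord_blow`: if `f = O (‖x‖ ^ p)` then `f (x, x (c + w)) = x ^ p * h` with `h (0, w) = ∑ γ j (c + w) ^ j`, `f (x y, y) = y ^ p * h` with
`h (w, 0) = ∑ γ j w ^ (p - j)`, and `f = O (‖x‖ ^ (p + 1))` if `γ = 0`.
-/

set_option autoImplicit false

open Topology Filter Asymptotics

noncomputable section

namespace Pool.Agent.MW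

open Pool.Agent.H17BP (bl blInf bl_zero blInf_zero analyticAt_bl analyticAt_blInf)

/-- the homogeneous polynomial `∑ j ≤ p, γ j * a ^ (p - j) * b ^ j` -/
def hpol (γ : ℕ → ℂ) (p : ℕ) (a b : ℂ) : ℂ := ∑ j ∈ Finset.range (p + 1), γ j * a ^ (p - j) * b ^ j

theorem multi_hpol {p : ℕ} (q : ContinuousMultilinearMap ℂ (fun _ : Fin p => ℂ × ℂ) ℂ) :
    ∃ γ : ℕ → ℂ, ∀ a b : ℂ, q (fun _ => (a, b)) = hpol γ p a b := by
  classical
  refine ⟨fun j => ∑ S : Finset (Fin p) with S.card = p - j, if j ≤ p then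
    q (S.piecewise (fun _ => ((1 : ℂ), (0 : ℂ))) (fun _ => ((0 : ℂ), (1 : ℂ)))) else 0, fun a b => ?_⟩
  have h1 : (fun _ : Fin p => (a, b)) = (fun _ : Fin p => a • ((1 : ℂ), (0 : ℂ))) + fun _ : Fin p => b • ((0 : ℂ), (1 : ℂ)) := by
    funext i
    simp
  have h2 : q (fun _ => (a, b)) = ∑ S : Finset (Fin p), a ^ S.card * b ^ (p - S.card) *
      q (S.piecewise (fun _ => ((1 : ℂ), (0 : ℂ))) (fun _ => ((0 : ℂ), (1 : ℂ)))) := by
    rw [h1]
    have h3 := q.toMultilinearMap.map_add_univ (fun _ : Fin p => a • ((1 : ℂ), (0 : ℂ))) (fun _ : Fin p => b • ((0 : ℂ), (1 : ℂ)))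
    rw [ContinuousMultilinearMap.coe_coe] at h3
    rw [h3]
    refine Finset.sum_congr rfl fun S _ => ?_
    have h4 : (S.piecewise (fun _ : Fin p => a • ((1 : ℂ), (0 : ℂ))) (fun _ : Fin p => b • ((0 : ℂ), (1 : ℂ)))) =
        fun i => (if i ∈ S then a else b) • (S.piecewise (fun _ : Fin p => ((1 : ℂ), (0 : ℂ))) (fun _ => ((0 : ℂ), (1 : ℂ)))) i := by
      funext i
      by_cases hi : i ∈ S
      · simp [Finset.piecewise, hi]
      · simp [Finset.piecewise, hi]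
    have h5 : ∏ i : Fin p, (if i ∈ S then a else b) = a ^ S.card * b ^ (p - S.card) := by
      rw [Finset.prod_ite, Finset.prod_const, Finset.prod_const]
      congr 2
      · simp
      · have h6 : (Finset.univ.filter fun i : Fin p => i ∉ S) = Sᶜ := by
          ext i
          simp
        rw [h6, Finset.card_compl, Fintype.card_fin]
    rw [h4, q.map_smul_univ, h5, smul_eq_mul]
  rw [h2, hpol]
  have h7 : ∀ j ∈ Finset.range (p + 1), (∑ S : Finset (Fin p) with S.card = p - j, if j ≤ p then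
      q (S.piecewise (fun _ => ((1 : ℂ), (0 : ℂ))) (fun _ => ((0 : ℂ), (1 : ℂ)))) else 0) * a ^ (p - j) * b ^ j =
      ∑ S : Finset (Fin p) with p - S.card = j, a ^ S.card * b ^ (p - S.card) *
      q (S.piecewise (fun _ => ((1 : ℂ), (0 : ℂ))) (fun _ => ((0 : ℂ), (1 : ℂ)))) := by
    intro j hj
    have hj' : j ≤ p := Nat.lt_succ_iff.1 (Finset.mem_range.1 hj)
    rw [Finset.sum_mul, Finset.sum_mul]
    refine Finset.sum_congr ?_ ?_
    · ext S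
      have h8 : S.card ≤ p := by
        have := S.card_le_univ
        simpa using this
      simp only [Finset.mem_filter, Finset.mem_univ, true_and]
      omega
    · intro S hS
      have h8 : p - S.card = j := by simpa using hS
      have h9 : S.card ≤ p := by
        have := S.card_le_univ
        simpa using this
      have h10 : S.card = p - j := by omega
      rw [if_pos hj', h8, h10]
      ring
  rw [Finset.sum_congr rfl h7]
  symm
  refine Finset.sum_fiberwise_of_maps_to (s := Finset.univ) (t := Finset.range (p + 1)) (g := fun S : Finset (Fin p) => p - S.card) ?_ _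
  intro S _
  rw [Finset.mem_range]
  omega

theorem exists_init {f : ℂ × ℂ → ℂ} (hf : AnalyticAt ℂ f 0) {p : ℕ} (hO : f =O[𝓝 0] fun x => ‖x‖ ^ p) :
    ∃ γ : ℕ → ℂ, (fun x => f x - hpol γ p x.1 x.2) =O[𝓝 0] fun x => ‖x‖ ^ (p + 1) := by
  obtain ⟨q, hq⟩ := hf
  have h0 : ∀ k, k < p → ∀ y, q k (fun _ => y) = 0 := by
    intro k
    induction k using Nat.strong_induction_on with
    | _ k ih =>
    intro hk y
    have h1 := hq.isBigO_sub_partialSum_pow (k + 1)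
    have h2 : (fun y => (q k fun _ => y)) =O[𝓝 0] fun y => ‖y‖ ^ (k + 1) := by
      have h3 : f =O[𝓝 0] fun x => ‖x‖ ^ (k + 1) := hO.trans (by
        refine IsBigO.of_bound 1 ?_
        filter_upwards [Metric.ball_mem_nhds (0 : ℂ × ℂ) one_pos] with x hx
        rw [mem_ball_zero_iff] at hx
        rw [one_mul, norm_pow, norm_norm, norm_pow, norm_norm]
        exact pow_le_pow_of_le_one (norm_nonneg _) hx.le hk)
      have h4 : (fun y => (q k fun _ => y)) = fun y => f y - (f (0 + y) - q.partialSum (k + 1) y) := by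
        funext y
        rw [FormalMultilinearSeries.partialSum, Finset.sum_range_succ, Finset.sum_eq_zero, zero_add, zero_add]
        · ring
        · intro i hi
          have hi' := Finset.mem_range.1 hi
          exact ih i hi' (hi'.trans hk) y
      rw [h4]
      exact h3.sub h1
    exact h2.continuousMultilinearMap_apply_eq_zero y
  obtain ⟨γ, hγ⟩ := multi_hpol (q p)
  refine ⟨γ, ?_⟩
  have h1 := hq.isBigO_sub_partialSum_pow (p + 1)
  refine h1.congr_left fun y => ?_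
  rw [FormalMultilinearSeries.partialSum, Finset.sum_range_succ, Finset.sum_eq_zero, zero_add, zero_add]
  · have h2 := hγ y.1 y.2
    rw [← h2]
  · intro i hi
    exact h0 i (Finset.mem_range.1 hi) y

theorem exists_div_pow {g : ℂ × ℂ → ℂ} (hg : AnalyticAt ℂ g 0) {p : ℕ} (hO : g =O[𝓝 0] fun x => x.1 ^ p) :
    ∃ h : ℂ × ℂ → ℂ, AnalyticAt ℂ h 0 ∧ ∀ᶠ x in 𝓝 (0 : ℂ × ℂ), g x = x.1 ^ p * h x := by
  by_cases h0 : ∀ᶠ x in 𝓝 (0 : ℂ × ℂ), g x = 0
  · refine ⟨fun _ => 0, analyticAt_const, ?_⟩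
    filter_upwards [h0] with x hx
    rw [hx, mul_zero]
  obtain ⟨a, g', hg', hev, hne⟩ := Pool.Agent.H22.HF.exists_div hg h0
  have hpa : p ≤ a := by
    by_contra hlt
    push Not at hlt
    apply hne
    obtain ⟨C, hC⟩ := hO.bound
    have h1 : ∀ᶠ x in 𝓝 (0 : ℂ × ℂ), ContinuousAt g' x := hg'.eventually_analyticAt.mono fun x hx => hx.continuousAt
    have h2 : ∀ᶠ x in 𝓝 (0 : ℂ × ℂ), x.1 ≠ 0 → ‖g' x‖ ≤ C * ‖x.1‖ := by
      filter_upwards [hC, hev, Metric.ball_mem_nhds (0 : ℂ × ℂ) one_pos] with x h3 h4 h5 h6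
      rw [mem_ball_zero_iff] at h5
      have h7 : ‖x.1‖ ≤ 1 := (norm_fst_le x).trans h5.le
      rw [h4, norm_mul, norm_pow, norm_pow] at h3
      have h8 : 0 < ‖x.1‖ := norm_pos_iff.2 h6
      have h9 : ‖x.1‖ ^ p = ‖x.1‖ ^ a * ‖x.1‖ ^ (p - a) := by
        rw [← pow_add]
        congr 1
        omega
      have h11 : ‖x.1‖ ^ (p - a) ≤ ‖x.1‖ := by
        calc ‖x.1‖ ^ (p - a) ≤ ‖x.1‖ ^ 1 := pow_le_pow_of_le_one h8.le h7 (by omega)
          _ = ‖x.1‖ := pow_one _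
      have h12 : 0 < ‖x.1‖ ^ a := pow_pos h8 a
      have h13 : ‖g' x‖ ≤ C * ‖x.1‖ ^ (p - a) := by
        have h14 : ‖x.1‖ ^ a * ‖g' x‖ ≤ ‖x.1‖ ^ a * (C * ‖x.1‖ ^ (p - a)) := by
          calc ‖x.1‖ ^ a * ‖g' x‖ ≤ C * ‖x.1‖ ^ p := h3
            _ = ‖x.1‖ ^ a * (C * ‖x.1‖ ^ (p - a)) := by rw [h9]; ring
        exact le_of_mul_le_mul_left h14 h12
      have h15 : 0 < ‖x.1‖ ^ (p - a) := pow_pos h8 _
      have hC0 : 0 ≤ C := by
        by_contra hneg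
        push Not at hneg
        have : C * ‖x.1‖ ^ (p - a) < 0 := mul_neg_of_neg_of_pos hneg h15
        linarith [norm_nonneg (g' x)]
      exact h13.trans (mul_le_mul_of_nonneg_left h11 hC0)
    have h3 : ∀ᶠ w in 𝓝 (0 : ℂ), (∀ᶠ s in 𝓝 (0 : ℂ), s ≠ 0 → ‖g' (s, w)‖ ≤ C * ‖s‖) ∧ ContinuousAt g' (0, w) := by
      have h4 : ∀ᶠ x in 𝓝 (0 : ℂ) ×ˢ 𝓝 (0 : ℂ), (x.2 ≠ 0 → ‖g' (x.2, x.1)‖ ≤ C * ‖x.2‖) := by
        have h5 : Tendsto (fun x : ℂ × ℂ => (x.2, x.1)) (𝓝 (0 : ℂ) ×ˢ 𝓝 (0 : ℂ)) (𝓝 (0 : ℂ × ℂ)) := by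
          rw [← nhds_prod_eq]
          exact (continuous_snd.prodMk continuous_fst).tendsto' _ _ rfl
        exact h5.eventually h2
      have h6 : Tendsto (fun w : ℂ => ((0 : ℂ), w)) (𝓝 0) (𝓝 0) := (Continuous.prodMk_right (0 : ℂ)).tendsto' _ _ rfl
      exact h4.curry.and (h6.eventually h1)
    filter_upwards [h3] with w hw
    have h4 : Tendsto (fun s : ℂ => g' (s, w)) (𝓝[≠] 0) (𝓝 (g' (0, w))) := by
      have h5 : Tendsto (fun s : ℂ => (s, w)) (𝓝 0) (𝓝 ((0 : ℂ), w)) := (Continuous.prodMk_left w).tendsto' _ _ rfl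
      exact (hw.2.tendsto.comp h5).mono_left nhdsWithin_le_nhds
    have h5 : Tendsto (fun s : ℂ => g' (s, w)) (𝓝[≠] 0) (𝓝 0) := by
      refine squeeze_zero_norm' (a := fun s : ℂ => C * ‖s‖) ?_ ?_
      · rw [eventually_nhdsWithin_iff]
        filter_upwards [hw.1] with s hs hs0
        exact hs hs0
      · have h6 : Tendsto (fun s : ℂ => C * ‖s‖) (𝓝 0) (𝓝 (C * ‖(0 : ℂ)‖)) := (continuous_const.mul continuous_norm).tendsto 0
        rw [norm_zero, mul_zero] at h6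
        exact h6.mono_left nhdsWithin_le_nhds
    exact tendsto_nhds_unique h4 h5
  refine ⟨fun x => x.1 ^ (a - p) * g' x, (analyticAt_fst.pow _).mul hg', ?_⟩
  filter_upwards [hev] with x hx
  rw [hx, ← mul_assoc, ← pow_add]
  congr 2
  omega

/-- the value on the exceptional curve -/
theorem exc_value {g h P : ℂ × ℂ → ℂ} {p : ℕ} (hh : AnalyticAt ℂ h 0) (he : ∀ᶠ x in 𝓝 (0 : ℂ × ℂ), g x = x.1 ^ p * h x)
    (hP : Continuous P) (hO : (fun x => g x - x.1 ^ p * P x) =O[𝓝 0] fun x : ℂ × ℂ => x.1 ^ (p + 1)) :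
    ∀ᶠ w in 𝓝 (0 : ℂ), h (0, w) = P (0, w) := by
  obtain ⟨C, hC⟩ := hO.bound
  have h1 : ∀ᶠ x in 𝓝 (0 : ℂ × ℂ), ContinuousAt h x := hh.eventually_analyticAt.mono fun x hx => hx.continuousAt
  have h2 : ∀ᶠ x in 𝓝 (0 : ℂ × ℂ), x.1 ≠ 0 → ‖h x - P x‖ ≤ C * ‖x.1‖ := by
    filter_upwards [hC, he] with x h3 h4 h6
    have h8 : 0 < ‖x.1‖ := norm_pos_iff.2 h6
    rw [h4, ← mul_sub, norm_mul, norm_pow, norm_pow] at h3
    have h12 : 0 < ‖x.1‖ ^ p := pow_pos h8 p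
    refine le_of_mul_le_mul_left ?_ h12
    calc ‖x.1‖ ^ p * ‖h x - P x‖ ≤ C * ‖x.1‖ ^ (p + 1) := h3
      _ = ‖x.1‖ ^ p * (C * ‖x.1‖) := by rw [pow_succ]; ring
  have h3 : ∀ᶠ w in 𝓝 (0 : ℂ), (∀ᶠ s in 𝓝 (0 : ℂ), s ≠ 0 → ‖h (s, w) - P (s, w)‖ ≤ C * ‖s‖) ∧ ContinuousAt h (0, w) := by
    have h4 : ∀ᶠ x in 𝓝 (0 : ℂ) ×ˢ 𝓝 (0 : ℂ), (x.2 ≠ 0 → ‖h (x.2, x.1) - P (x.2, x.1)‖ ≤ C * ‖x.2‖) := by
      have h5 : Tendsto (fun x : ℂ × ℂ => (x.2, x.1)) (𝓝 (0 : ℂ) ×ˢ 𝓝 (0 : ℂ)) (𝓝 (0 : ℂ × ℂ)) := by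
        rw [← nhds_prod_eq]
        exact (continuous_snd.prodMk continuous_fst).tendsto' _ _ rfl
      exact h5.eventually h2
    have h6 : Tendsto (fun w : ℂ => ((0 : ℂ), w)) (𝓝 0) (𝓝 0) := (Continuous.prodMk_right (0 : ℂ)).tendsto' _ _ rfl
    exact h4.curry.and (h6.eventually h1)
  filter_upwards [h3] with w hw
  have h4 : Tendsto (fun s : ℂ => h (s, w) - P (s, w)) (𝓝[≠] 0) (𝓝 (h (0, w) - P (0, w))) := by
    have h5 : Tendsto (fun s : ℂ => (s, w)) (𝓝 0) (𝓝 ((0 : ℂ), w)) := (Continuous.prodMk_left w).tendsto' _ _ rfl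
    exact ((hw.2.tendsto.comp h5).sub ((hP.tendsto _).comp h5)).mono_left nhdsWithin_le_nhds
  have h5 : Tendsto (fun s : ℂ => h (s, w) - P (s, w)) (𝓝[≠] 0) (𝓝 0) := by
    refine squeeze_zero_norm' (a := fun s : ℂ => C * ‖s‖) ?_ ?_
    · rw [eventually_nhdsWithin_iff]
      filter_upwards [hw.1] with s hs hs0
      exact hs hs0
    · have h6 : Tendsto (fun s : ℂ => C * ‖s‖) (𝓝 0) (𝓝 (C * ‖(0 : ℂ)‖)) := (continuous_const.mul continuous_norm).tendsto 0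
      rw [norm_zero, mul_zero] at h6
      exact h6.mono_left nhdsWithin_le_nhds
  exact sub_eq_zero.1 (tendsto_nhds_unique h4 h5)

theorem norm_bl_le (c : ℂ) : ∀ᶠ x in 𝓝 (0 : ℂ × ℂ), ‖bl c x‖ ≤ (2 + ‖c‖) * ‖x.1‖ := by
  filter_upwards [Metric.ball_mem_nhds (0 : ℂ × ℂ) one_pos] with x hx
  rw [mem_ball_zero_iff] at hx
  have h1 : ‖x.2‖ ≤ 1 := (norm_snd_le x).trans hx.le
  rw [bl, Prod.norm_mk, norm_mul]
  refine max_le ?_ ?_
  · nlinarith [norm_nonneg x.1, norm_nonneg c]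
  · have h2 : ‖c + x.2‖ ≤ ‖c‖ + 1 := (norm_add_le _ _).trans (by linarith)
    nlinarith [norm_nonneg x.1, norm_nonneg c]

theorem hpol_bl (γ : ℕ → ℂ) (p : ℕ) (x c : ℂ) : hpol γ p x (x * c) = x ^ p * hpol γ p 1 c := by
  unfold hpol
  rw [Finset.mul_sum]
  refine Finset.sum_congr rfl fun j hj => ?_
  have h1 : j ≤ p := Nat.lt_succ_iff.1 (Finset.mem_range.1 hj)
  have h2 : x ^ p = x ^ (p - j) * x ^ j := by
    rw [← pow_add]
    congr 1
    omega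
  rw [h2, one_pow, mul_pow]
  ring

theorem hpol_swap (γ : ℕ → ℂ) (p : ℕ) (a b : ℂ) : hpol γ p a b = hpol (fun j => γ (p - j)) p b a := by
  unfold hpol
  rw [← Finset.sum_range_reflect]
  refine Finset.sum_congr rfl fun j hj => ?_
  have h1 : j ≤ p := Nat.lt_succ_iff.1 (Finset.mem_range.1 hj)
  have h2 : p + 1 - 1 - j = p - j := by omega
  have h3 : p - (p - j) = j := by omega
  rw [h2, h3]
  ring

theorem bl_chart {f : ℂ × ℂ → ℂ} (hf : AnalyticAt ℂ f 0) {p : ℕ} {γ : ℕ → ℂ} (hO : f =O[𝓝 0] fun x => ‖x‖ ^ p)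
    (hγ : (fun x => f x - hpol γ p x.1 x.2) =O[𝓝 0] fun x => ‖x‖ ^ (p + 1)) (c : ℂ) :
    ∃ h : ℂ × ℂ → ℂ, AnalyticAt ℂ h 0 ∧ (∀ᶠ x in 𝓝 (0 : ℂ × ℂ), f (bl c x) = x.1 ^ p * h x) ∧
      ∀ᶠ w in 𝓝 (0 : ℂ), h (0, w) = hpol γ p 1 (c + w) := by
  have ht : Tendsto (bl c) (𝓝 0) (𝓝 0) := by
    have := (analyticAt_bl c 0).continuousAt.tendsto
    rwa [bl_zero] at this
  have hg : AnalyticAt ℂ (fun x => f (bl c x)) 0 := by
    have h1 : AnalyticAt ℂ f (bl c 0) := by rw [bl_zero]; exact hf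
    exact AnalyticAt.comp (g := f) (f := bl c) h1 (analyticAt_bl c 0)
  have hpow : ∀ k : ℕ, (fun x : ℂ × ℂ => ‖bl c x‖ ^ k) =O[𝓝 0] fun x : ℂ × ℂ => x.1 ^ k := by
    intro k
    refine IsBigO.of_bound ((2 + ‖c‖) ^ k) ?_
    filter_upwards [norm_bl_le c] with x hx
    rw [norm_pow, norm_norm, norm_pow, ← mul_pow]
    exact pow_le_pow_left₀ (norm_nonneg _) hx k
  have h1 : (fun x => f (bl c x)) =O[𝓝 0] fun x : ℂ × ℂ => x.1 ^ p := (hO.comp_tendsto ht).trans (hpow p)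
  obtain ⟨h, hh, he⟩ := exists_div_pow hg h1
  refine ⟨h, hh, he, ?_⟩
  have h2 := exc_value (g := fun x => f (bl c x)) (P := fun x : ℂ × ℂ => hpol γ p 1 (c + x.2)) hh he ?_ ?_
  · simpa using h2
  · unfold hpol
    fun_prop
  · refine (((hγ.comp_tendsto ht).trans (hpow (p + 1)))).congr_left fun x => ?_
    simp only [Function.comp_apply, bl]
    rw [hpol_bl]

/-- the blow-up of a germ which vanishes of order `≥ p` -/
theorem ord_blow {f : ℂ × ℂ → ℂ} (hf : AnalyticAt ℂ f 0) {p : ℕ} (hO : f =O[𝓝 0] fun x => ‖x‖ ^ p) :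
    ∃ γ : ℕ → ℂ,
      (∀ c : ℂ, ∃ h : ℂ × ℂ → ℂ, AnalyticAt ℂ h 0 ∧ (∀ᶠ x in 𝓝 (0 : ℂ × ℂ), f (bl c x) = x.1 ^ p * h x) ∧
        ∀ᶠ w in 𝓝 (0 : ℂ), h (0, w) = hpol γ p 1 (c + w)) ∧
      (∃ h : ℂ × ℂ → ℂ, AnalyticAt ℂ h 0 ∧ (∀ᶠ x in 𝓝 (0 : ℂ × ℂ), f (blInf x) = x.2 ^ p * h x) ∧
        ∀ᶠ w in 𝓝 (0 : ℂ), h (w, 0) = hpol γ p w 1) ∧
      ((∀ j ≤ p, γ j = 0) → f =O[𝓝 0] fun x => ‖x‖ ^ (p + 1)) := by
  obtain ⟨γ, hγ⟩ := exists_init hf hO
  refine ⟨γ, fun c => bl_chart hf hO hγ c, ?_, ?_⟩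
  · have hsw : AnalyticAt ℂ (fun x : ℂ × ℂ => (x.2, x.1)) 0 := analyticAt_snd.prod analyticAt_fst
    have hst : Tendsto (fun x : ℂ × ℂ => (x.2, x.1)) (𝓝 0) (𝓝 0) := (continuous_snd.prodMk continuous_fst).tendsto' _ _ rfl
    have hf' : AnalyticAt ℂ (fun x : ℂ × ℂ => f (x.2, x.1)) 0 := by
      have h1 : AnalyticAt ℂ f ((fun x : ℂ × ℂ => (x.2, x.1)) 0) := hf
      exact AnalyticAt.comp (g := f) (f := fun x : ℂ × ℂ => (x.2, x.1)) h1 hsw
    have hn : ∀ x : ℂ × ℂ, ‖((x.2, x.1) : ℂ × ℂ)‖ = ‖x‖ := fun x => by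
      rw [Prod.norm_mk, Prod.norm_def, max_comm]
    have hO' : (fun x : ℂ × ℂ => f (x.2, x.1)) =O[𝓝 0] fun x => ‖x‖ ^ p := by
      refine (hO.comp_tendsto hst).congr (fun x => rfl) fun x => ?_
      simp only [Function.comp_apply, hn]
    have hγ' : (fun x : ℂ × ℂ => f (x.2, x.1) - hpol (fun j => γ (p - j)) p x.1 x.2) =O[𝓝 0] fun x => ‖x‖ ^ (p + 1) := by
      refine (hγ.comp_tendsto hst).congr (fun x => ?_) fun x => ?_
      · simp only [Function.comp_apply]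
        rw [← hpol_swap]
      · simp only [Function.comp_apply, hn]
    obtain ⟨h, hh, he, hw⟩ := bl_chart hf' hO' hγ' 0
    refine ⟨fun x => h (x.2, x.1), ?_, ?_, ?_⟩
    · have h1 : AnalyticAt ℂ h ((fun x : ℂ × ℂ => (x.2, x.1)) 0) := hh
      exact AnalyticAt.comp (g := h) (f := fun x : ℂ × ℂ => (x.2, x.1)) h1 hsw
    · filter_upwards [hst.eventually he] with x hx
      rw [← hx]
      simp only [bl, blInf, zero_add]
      congr 2
      ring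
    · filter_upwards [hw] with w hw'
      rw [hw', zero_add, ← hpol_swap]
  · intro h0
    refine hγ.congr_left fun x => ?_
    have h1 : hpol γ p x.1 x.2 = 0 := Finset.sum_eq_zero fun j hj => by
      rw [h0 j (Nat.lt_succ_iff.1 (Finset.mem_range.1 hj)), zero_mul, zero_mul]
    rw [h1, sub_zero]

end Pool.Agent.MW
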