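import Pool.Agent.MW.Ord2

/-!
# MW Corner: logarithmic vector fields become nonzero at the corners after finitely many blow-ups of corners

`(α, β)` is the vector field `α s ∂_s + β t ∂_t`.
-/

set_option autoImplicit false

open Topology Filter Asymptotics

noncomputable section

namespace Pool.Agent.MW

open Pool.Agent.H17BP (bl blInf bl_zero blInf_zero analyticAt_bl analyticAt_blInf)

/-- the pair is not divisible by the second and not divisible by the first coordinate -/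
structure Cop (α β : ℂ × ℂ → ℂ) : Prop where
  an₁ : AnalyticAt ℂ α 0
  an₂ : AnalyticAt ℂ β 0
  ax₁ : ¬ ∀ᶠ s in 𝓝 (0 : ℂ), α (s, 0) = 0 ∧ β (s, 0) = 0
  ax₂ : ¬ ∀ᶠ t in 𝓝 (0 : ℂ), α (0, t) = 0 ∧ β (0, t) = 0

/-- the field `α s ∂_s + β t ∂_t` does not vanish (as a logarithmic field) at the corners after finitely many blow-ups of corners -/
inductive CTree : (ℂ × ℂ → ℂ) → (ℂ × ℂ → ℂ) → Prop
  | leaf {α β : ℂ × ℂ → ℂ} (h : Cop α β) (h0 : α 0 ≠ 0 ∨ β 0 ≠ 0) : CTree α β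
  | blow {α β α₁ β₁ α₂ β₂ : ℂ × ℂ → ℂ} (p : ℕ) (h : Cop α β)
      (hα : ∀ᶠ x in 𝓝 (0 : ℂ × ℂ), α (bl 0 x) = x.1 ^ p * α₁ x)
      (hβ : ∀ᶠ x in 𝓝 (0 : ℂ × ℂ), β (bl 0 x) - α (bl 0 x) = x.1 ^ p * β₁ x)
      (hα' : ∀ᶠ x in 𝓝 (0 : ℂ × ℂ), α (blInf x) - β (blInf x) = x.2 ^ p * α₂ x)
      (hβ' : ∀ᶠ x in 𝓝 (0 : ℂ × ℂ), β (blInf x) = x.2 ^ p * β₂ x)
      (h₁ : CTree α₁ β₁) (h₂ : CTree α₂ β₂) : CTree α β

theorem CTree.cop {α β : ℂ × ℂ → ℂ} (h : CTree α β) : Cop α β := by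
  cases h with
  | leaf h _ => exact h
  | blow p h _ _ _ _ _ _ => exact h

theorem ord_hpol {γ : ℕ → ℂ} {p : ℕ} (h : ∃ j ≤ p, γ j ≠ 0) : analyticOrderAt (fun w : ℂ => hpol γ p 1 w) 0 ≤ (p : ℕ∞) := by
  classical
  set P : Polynomial ℂ := ∑ j ∈ Finset.range (p + 1), Polynomial.C (γ j) * Polynomial.X ^ j with hP
  have hev : ∀ w, P.eval w = hpol γ p 1 w := by
    intro w
    rw [hP, Polynomial.eval_finsetSum, hpol]
    refine Finset.sum_congr rfl fun j _ => ?_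
    simp
  have hcoeff : ∀ j ≤ p, P.coeff j = γ j := by
    intro j hj
    rw [hP, Polynomial.finsetSum_coeff]
    simp only [Polynomial.coeff_C_mul, Polynomial.coeff_X_pow, mul_ite, mul_one, mul_zero]
    rw [Finset.sum_ite_eq, if_pos (Finset.mem_range.2 (by omega))]
  have hne : P ≠ 0 := by
    obtain ⟨j, hj, hγ⟩ := h
    intro h0
    have h1 := hcoeff j hj
    rw [h0, Polynomial.coeff_zero] at h1
    exact hγ h1.symm
  have hdeg : P.natDegree ≤ p := by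
    refine Polynomial.natDegree_sum_le_of_forall_le _ _ fun j hj => ?_
    refine (Polynomial.natDegree_C_mul_X_pow_le _ _).trans ?_
    exact Nat.lt_succ_iff.1 (Finset.mem_range.1 hj)
  obtain ⟨R, hR, hnd⟩ := Polynomial.exists_eq_pow_rootMultiplicity_mul_and_not_dvd P hne 0
  rw [Polynomial.dvd_iff_isRoot, Polynomial.IsRoot.def] at hnd
  have hmul : P.rootMultiplicity 0 ≤ p := by
    refine le_trans ?_ hdeg
    have hR0 : R ≠ 0 := by
      rintro rfl
      rw [mul_zero] at hR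
      exact hne hR
    have h1 : P.natDegree = P.rootMultiplicity 0 + R.natDegree := by
      conv_lhs => rw [hR]
      rw [Polynomial.natDegree_mul (pow_ne_zero _ (Polynomial.X_sub_C_ne_zero 0)) hR0, Polynomial.natDegree_pow,
        Polynomial.natDegree_X_sub_C, mul_one]
    omega
  have han : AnalyticAt ℂ (fun w : ℂ => hpol γ p 1 w) 0 := by
    unfold hpol
    refine Finset.analyticAt_fun_sum _ fun j _ => ?_
    exact (analyticAt_const.mul analyticAt_const).mul (analyticAt_id.pow j)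
  have hord : analyticOrderAt (fun w : ℂ => hpol γ p 1 w) 0 = ((P.rootMultiplicity 0 : ℕ) : ℕ∞) := by
    rw [han.analyticOrderAt_eq_natCast]
    refine ⟨fun w => R.eval w, ?_, hnd, ?_⟩
    · exact (AnalyticOnNhd.eval_polynomial (A := ℂ) R) 0 (Set.mem_univ _)
    · refine Eventually.of_forall fun w => ?_
      show hpol γ p 1 w = (w - 0) ^ _ • R.eval w
      rw [← hev, smul_eq_mul]
      conv_lhs => rw [hR]
      rw [Polynomial.eval_mul, Polynomial.eval_pow, Polynomial.eval_sub, Polynomial.eval_X, Polynomial.eval_C]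
  rw [hord]
  exact_mod_cast hmul

theorem isBigO_norm_of_zero {f : ℂ × ℂ → ℂ} (hf : AnalyticAt ℂ f 0) (h0 : f 0 = 0) : f =O[𝓝 0] fun x => ‖x‖ ^ 1 := by
  have h1 := hf.differentiableAt.hasFDerivAt.isBigO_sub
  simp only [h0, sub_zero, pow_one] at h1 ⊢
  exact h1.norm_right

private theorem ax_an₁ {f : ℂ × ℂ → ℂ} (hf : AnalyticAt ℂ f 0) : AnalyticAt ℂ (fun s : ℂ => f (s, 0)) 0 := by
  have h1 : AnalyticAt ℂ f ((fun s : ℂ => (s, (0 : ℂ))) 0) := hf
  exact AnalyticAt.comp (g := f) (f := fun s : ℂ => (s, (0 : ℂ))) h1 (analyticAt_id.prod analyticAt_const)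

private theorem ax_an₂ {f : ℂ × ℂ → ℂ} (hf : AnalyticAt ℂ f 0) : AnalyticAt ℂ (fun s : ℂ => f (0, s)) 0 := by
  have h1 : AnalyticAt ℂ f ((fun s : ℂ => ((0 : ℂ), s)) 0) := hf
  exact AnalyticAt.comp (g := f) (f := fun s : ℂ => ((0 : ℂ), s)) h1 (analyticAt_const.prod analyticAt_id)

private theorem tend₁ : Tendsto (fun s : ℂ => (s, (0 : ℂ))) (𝓝 0) (𝓝 0) := (Continuous.prodMk_left (0 : ℂ)).tendsto' _ _ rfl

private theorem tend₂ : Tendsto (fun s : ℂ => ((0 : ℂ), s)) (𝓝 0) (𝓝 0) := (Continuous.prodMk_right (0 : ℂ)).tendsto' _ _ rfl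

/-- the order of the pair on the first axis -/
def zo (a b : ℂ → ℂ) : ℕ∞ := min (analyticOrderAt a 0) (analyticOrderAt b 0)

theorem zo_ne_top {a b : ℂ → ℂ} (h : zo a b ≠ ⊤) : ¬ ∀ᶠ s in 𝓝 (0 : ℂ), a s = 0 ∧ b s = 0 := by
  intro h0
  apply h
  have h1 : analyticOrderAt a 0 = ⊤ := analyticOrderAt_eq_top.2 (h0.mono fun s hs => hs.1)
  have h2 : analyticOrderAt b 0 = ⊤ := analyticOrderAt_eq_top.2 (h0.mono fun s hs => hs.2)
  rw [zo, h1, h2, min_self]

theorem zo_lt_top {a b : ℂ → ℂ} (h : ¬ ∀ᶠ s in 𝓝 (0 : ℂ), a s = 0 ∧ b s = 0) : zo a b ≠ ⊤ := by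
  intro h0
  apply h
  have h1 : analyticOrderAt a 0 = ⊤ := by
    have := min_le_left (analyticOrderAt a 0) (analyticOrderAt b 0)
    rw [zo] at h0
    rw [h0] at this
    exact top_le_iff.1 this
  have h2 : analyticOrderAt b 0 = ⊤ := by
    have := min_le_right (analyticOrderAt a 0) (analyticOrderAt b 0)
    rw [zo] at h0
    rw [h0] at this
    exact top_le_iff.1 this
  exact (analyticOrderAt_eq_top.1 h1).and (analyticOrderAt_eq_top.1 h2)

theorem order_pow_mul {f g : ℂ → ℂ} {p : ℕ} (hg : AnalyticAt ℂ g 0) (h : ∀ᶠ s in 𝓝 (0 : ℂ), f s = s ^ p * g s) :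
    analyticOrderAt f 0 = (p : ℕ∞) + analyticOrderAt g 0 := by
  have h1 : analyticOrderAt f 0 = analyticOrderAt ((fun s : ℂ => s ^ p) * g) 0 := analyticOrderAt_congr h
  have h2 : AnalyticAt ℂ (fun s : ℂ => s ^ p) 0 := analyticAt_id.pow p
  have h3 : analyticOrderAt (fun s : ℂ => s ^ p) 0 = (p : ℕ∞) := by
    rw [h2.analyticOrderAt_eq_natCast]
    refine ⟨fun _ => 1, analyticAt_const, one_ne_zero, ?_⟩
    filter_upwards with z
    simp
  rw [h1, analyticOrderAt_mul h2 hg, h3]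

theorem le_zo_sub {a b : ℂ → ℂ} : min (analyticOrderAt a 0) (analyticOrderAt (fun s => b s - a s) 0) ≤ zo a b := by
  refine le_min (min_le_left _ _) ?_
  have h1 : b = fun s => (b s - a s) + a s := by
    funext s
    ring
  have h2 := le_analyticOrderAt_add (f := fun s => b s - a s) (g := a) (z₀ := (0 : ℂ))
  have h3 : ((fun s => b s - a s) + a) = b := by
    funext s
    simp
  rw [h3] at h2
  rw [min_comm]
  exact h2

/-- **corner resolution** -/
theorem ctree_of_le (n : ℕ) : ∀ {α β : ℂ × ℂ → ℂ}, AnalyticAt ℂ α 0 → AnalyticAt ℂ β 0 →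
    zo (fun s => α (s, 0)) (fun s => β (s, 0)) + zo (fun s => α (0, s)) (fun s => β (0, s)) ≤ (n : ℕ∞) → CTree α β := by
  induction n using Nat.strong_induction_on with
  | _ n ih =>
  intro α β hα hβ hn
  have hz₁ : zo (fun s => α (s, 0)) (fun s => β (s, 0)) ≠ ⊤ := by
    intro h0
    rw [h0, top_add] at hn
    exact absurd hn (by simp)
  have hz₂ : zo (fun s => α (0, s)) (fun s => β (0, s)) ≠ ⊤ := by
    intro h0
    rw [h0, add_top] at hn
    exact absurd hn (by simp)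
  have hcop : Cop α β := ⟨hα, hβ, zo_ne_top hz₁, zo_ne_top hz₂⟩
  by_cases h0 : α 0 ≠ 0 ∨ β 0 ≠ 0
  · exact CTree.leaf hcop h0
  push Not at h0
  obtain ⟨z₁, hz₁'⟩ := ENat.ne_top_iff_exists.1 hz₁
  obtain ⟨z₂, hz₂'⟩ := ENat.ne_top_iff_exists.1 hz₂
  have hO : ∀ {f : ℂ × ℂ → ℂ} {p : ℕ}, AnalyticAt ℂ f 0 → (f =O[𝓝 0] fun x => ‖x‖ ^ p) →
      (p : ℕ∞) ≤ analyticOrderAt (fun s => f (s, 0)) 0 ∧ (p : ℕ∞) ≤ analyticOrderAt (fun s => f (0, s)) 0 := by
    intro f p hf hfO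
    obtain ⟨_, h1, ⟨h, h2, h3, _⟩, _⟩ := ord_blow hf hfO
    obtain ⟨h', h4, h5, _⟩ := h1 0
    constructor
    · rw [order_pow_mul (ax_an₁ h4) (p := p)]
      · exact le_self_add
      · filter_upwards [tend₁.eventually h5] with s hs
        simpa [bl] using hs
    · rw [order_pow_mul (ax_an₂ h2) (p := p)]
      · exact le_self_add
      · filter_upwards [tend₂.eventually h3] with s hs
        simpa [blInf] using hs
  -- the order `p` of the pair
  obtain ⟨p, hp1, hpα, hpβ, hpn⟩ : ∃ p : ℕ, 1 ≤ p ∧ (α =O[𝓝 0] fun x => ‖x‖ ^ p) ∧ (β =O[𝓝 0] fun x => ‖x‖ ^ p) ∧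
      ¬ ((α =O[𝓝 0] fun x => ‖x‖ ^ (p + 1)) ∧ (β =O[𝓝 0] fun x => ‖x‖ ^ (p + 1))) := by
    by_contra hcon
    push Not at hcon
    have hall : ∀ p : ℕ, (α =O[𝓝 0] fun x => ‖x‖ ^ (p + 1)) ∧ (β =O[𝓝 0] fun x => ‖x‖ ^ (p + 1)) := by
      intro p
      induction p with
      | zero => exact ⟨isBigO_norm_of_zero hα h0.1, isBigO_norm_of_zero hβ h0.2⟩
      | succ p ihp => exact hcon (p + 1) (by omega) ihp.1 ihp.2
    have h1 := hO hα (hall z₁).1
    have h2 := hO hβ (hall z₁).2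
    have h3 : ((z₁ + 1 : ℕ) : ℕ∞) ≤ zo (fun s => α (s, 0)) (fun s => β (s, 0)) := le_min h1.1 h2.1
    rw [← hz₁'] at h3
    have h4 : z₁ + 1 ≤ z₁ := by exact_mod_cast h3
    omega
  obtain ⟨γ, hγ1, hγ2, hγ3⟩ := ord_blow hα hpα
  obtain ⟨δ, hδ1, hδ2, hδ3⟩ := ord_blow hβ hpβ
  have hne : (∃ j ≤ p, γ j ≠ 0) ∨ ∃ j ≤ p, δ j ≠ 0 := by
    by_contra hcon
    push Not at hcon
    exact hpn ⟨hγ3 fun j hj => hcon.1 j hj, hδ3 fun j hj => hcon.2 j hj⟩
  obtain ⟨α₁, ha1, ha2, ha3⟩ := hγ1 0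
  obtain ⟨B₁, hb1, hb2, hb3⟩ := hδ1 0
  obtain ⟨A₂, hc1, hc2, hc3⟩ := hγ2
  obtain ⟨β₂, hd1, hd2, hd3⟩ := hδ2
  have hp₁ : p ≤ z₁ := by
    have h1 : (p : ℕ∞) ≤ zo (fun s => α (s, 0)) (fun s => β (s, 0)) := le_min (hO hα hpα).1 (hO hβ hpβ).1
    rw [← hz₁'] at h1
    exact_mod_cast h1
  have hp₂ : p ≤ z₂ := by
    have h1 : (p : ℕ∞) ≤ zo (fun s => α (0, s)) (fun s => β (0, s)) := le_min (hO hα hpα).2 (hO hβ hpβ).2
    rw [← hz₂'] at h1
    exact_mod_cast h1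
  have hsum : z₁ + z₂ ≤ n := by
    rw [← hz₁', ← hz₂'] at hn
    exact_mod_cast hn
  -- the first chart
  have hzα : zo (fun s => α₁ (s, 0)) (fun s => B₁ (s, 0)) = ((z₁ - p : ℕ) : ℕ∞) := by
    have h1 : analyticOrderAt (fun s => α (s, 0)) 0 = (p : ℕ∞) + analyticOrderAt (fun s => α₁ (s, 0)) 0 := by
      refine order_pow_mul (ax_an₁ ha1) ?_
      filter_upwards [tend₁.eventually ha2] with s hs
      simpa [bl] using hs
    have h2 : analyticOrderAt (fun s => β (s, 0)) 0 = (p : ℕ∞) + analyticOrderAt (fun s => B₁ (s, 0)) 0 := by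
      refine order_pow_mul (ax_an₁ hb1) ?_
      filter_upwards [tend₁.eventually hb2] with s hs
      simpa [bl] using hs
    have h3 : (z₁ : ℕ∞) = (p : ℕ∞) + zo (fun s => α₁ (s, 0)) (fun s => B₁ (s, 0)) := by
      rw [hz₁', zo, zo, h1, h2, ← min_add_add_left]
    have h4 : zo (fun s => α₁ (s, 0)) (fun s => B₁ (s, 0)) ≠ ⊤ := by
      intro h5
      rw [h5, add_top] at h3
      exact absurd h3 (by simp)
    obtain ⟨k, hk⟩ := ENat.ne_top_iff_exists.1 h4
    rw [← hk] at h3 ⊢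
    have h5 : z₁ = p + k := by exact_mod_cast h3
    have h6 : z₁ - p = k := by omega
    rw [h6]
  have hzβ : zo (fun s => A₂ (0, s)) (fun s => β₂ (0, s)) = ((z₂ - p : ℕ) : ℕ∞) := by
    have h1 : analyticOrderAt (fun s => α (0, s)) 0 = (p : ℕ∞) + analyticOrderAt (fun s => A₂ (0, s)) 0 := by
      refine order_pow_mul (ax_an₂ hc1) ?_
      filter_upwards [tend₂.eventually hc2] with s hs
      simpa [blInf] using hs
    have h2 : analyticOrderAt (fun s => β (0, s)) 0 = (p : ℕ∞) + analyticOrderAt (fun s => β₂ (0, s)) 0 := by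
      refine order_pow_mul (ax_an₂ hd1) ?_
      filter_upwards [tend₂.eventually hd2] with s hs
      simpa [blInf] using hs
    have h3 : (z₂ : ℕ∞) = (p : ℕ∞) + zo (fun s => A₂ (0, s)) (fun s => β₂ (0, s)) := by
      rw [hz₂', zo, zo, h1, h2, ← min_add_add_left]
    have h4 : zo (fun s => A₂ (0, s)) (fun s => β₂ (0, s)) ≠ ⊤ := by
      intro h5
      rw [h5, add_top] at h3
      exact absurd h3 (by simp)
    obtain ⟨k, hk⟩ := ENat.ne_top_iff_exists.1 h4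
    rw [← hk] at h3 ⊢
    have h5 : z₂ = p + k := by exact_mod_cast h3
    have h6 : z₂ - p = k := by omega
    rw [h6]
  have hnew₁ : zo (fun s => α₁ (0, s)) (fun s => B₁ (0, s)) ≤ (p : ℕ∞) := by
    rw [zo]
    rcases hne with h | h
    · refine (min_le_left _ _).trans ?_
      rw [analyticOrderAt_congr (g := fun w : ℂ => hpol γ p 1 w) ?_]
      · exact ord_hpol h
      · filter_upwards [ha3] with w hw
        rw [hw, zero_add]
    · refine (min_le_right _ _).trans ?_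
      rw [analyticOrderAt_congr (g := fun w : ℂ => hpol δ p 1 w) ?_]
      · exact ord_hpol h
      · filter_upwards [hb3] with w hw
        rw [hw, zero_add]
  have hnew₂ : zo (fun s => A₂ (s, 0)) (fun s => β₂ (s, 0)) ≤ (p : ℕ∞) := by
    have hsw : ∀ {ε : ℕ → ℂ}, (∃ j ≤ p, ε j ≠ 0) → ∃ j ≤ p, (fun j => ε (p - j)) j ≠ 0 := by
      rintro ε ⟨j, hj, hε⟩
      exact ⟨p - j, by omega, by simpa [show p - (p - j) = j by omega] using hε⟩
    rw [zo]
    rcases hne with h | h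
    · refine (min_le_left _ _).trans ?_
      rw [analyticOrderAt_congr (g := fun w : ℂ => hpol (fun j => γ (p - j)) p 1 w) ?_]
      · exact ord_hpol (hsw h)
      · filter_upwards [hc3] with w hw
        rw [hw, hpol_swap]
    · refine (min_le_right _ _).trans ?_
      rw [analyticOrderAt_congr (g := fun w : ℂ => hpol (fun j => δ (p - j)) p 1 w) ?_]
      · exact ord_hpol (hsw h)
      · filter_upwards [hd3] with w hw
        rw [hw, hpol_swap]
  have hT₁ : CTree α₁ (fun x => B₁ x - α₁ x) := by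
    refine ih (z₁ - p + p) (by omega) ha1 (hb1.sub ha1) ?_
    rw [Nat.cast_add]
    refine add_le_add ?_ ?_
    · rw [← hzα]
      exact le_zo_sub
    · exact le_zo_sub.trans hnew₁
  have hT₂ : CTree (fun x => A₂ x - β₂ x) β₂ := by
    refine ih (p + (z₂ - p)) (by omega) (hc1.sub hd1) hd1 ?_
    rw [Nat.cast_add]
    refine add_le_add ?_ ?_
    · refine le_trans ?_ hnew₂
      rw [zo, zo, min_comm, min_comm (analyticOrderAt (fun s => A₂ (s, 0)) 0)]
      exact le_zo_sub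
    · rw [← hzβ]
      rw [zo, zo, min_comm, min_comm (analyticOrderAt (fun s => A₂ (0, s)) 0)]
      exact le_zo_sub
  refine CTree.blow p hcop ha2 ?_ ?_ hd2 hT₁ hT₂
  · filter_upwards [ha2, hb2] with x h1 h2
    rw [h1, h2]
    ring
  · filter_upwards [hc2, hd2] with x h1 h2
    rw [h1, h2]
    ring

/-- **corner resolution** -/
theorem exists_ctree {α β : ℂ × ℂ → ℂ} (h : Cop α β) : CTree α β := by
  obtain ⟨z₁, hz₁⟩ := ENat.ne_top_iff_exists.1 (zo_lt_top h.ax₁)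
  obtain ⟨z₂, hz₂⟩ := ENat.ne_top_iff_exists.1 (zo_lt_top h.ax₂)
  refine ctree_of_le (z₁ + z₂) h.an₁ h.an₂ ?_
  rw [← hz₁, ← hz₂]
  exact_mod_cast le_rfl

end Pool.Agent.MW
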