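import Pool.Agent.MW.Corner

/-!
# MW CornerW: corner resolution for tuples of coefficients

`c : ι → germs` are the coefficients of a form (of any degree) in a logarithmic frame; the frame changes by the invertible matrices `M₁`, `M₂` in the two
corner charts.  After finitely many blow-ups of corners (and division by the powers of the exceptional equations) the coefficients have no common zero at
the corners.
-/

set_option autoImplicit false

open Topology Filter Asymptotics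

noncomputable section

namespace Pool.Agent.MW

open Pool.Agent.H17BP (bl blInf bl_zero blInf_zero analyticAt_bl analyticAt_blInf)

variable {ι : Type} [Fintype ι]

/-- not divisible by the second and not divisible by the first coordinate -/
structure CopW (c : ι → ℂ × ℂ → ℂ) : Prop where
  an : ∀ i, AnalyticAt ℂ (c i) 0
  ax₁ : ¬ ∀ᶠ s in 𝓝 (0 : ℂ), ∀ i, c i (s, 0) = 0
  ax₂ : ¬ ∀ᶠ t in 𝓝 (0 : ℂ), ∀ i, c i (0, t) = 0

/-- the change of frame -/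
def lin (M : Matrix ι ι ℂ) (h : ι → ℂ × ℂ → ℂ) (j : ι) (x : ℂ × ℂ) : ℂ := ∑ i, M j i * h i x

/-- the coefficients have no common zero at the corners after finitely many blow-ups of corners -/
inductive WTree (M₁ M₂ : Matrix ι ι ℂ) : (ι → ℂ × ℂ → ℂ) → Prop
  | leaf {c : ι → ℂ × ℂ → ℂ} (h : CopW c) (h0 : ∃ i, c i 0 ≠ 0) : WTree M₁ M₂ c
  | blow {c h₁ h₂ : ι → ℂ × ℂ → ℂ} (p : ℕ) (h : CopW c) (an₁ : ∀ i, AnalyticAt ℂ (h₁ i) 0) (an₂ : ∀ i, AnalyticAt ℂ (h₂ i) 0)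
      (e₁ : ∀ i, ∀ᶠ x in 𝓝 (0 : ℂ × ℂ), c i (bl 0 x) = x.1 ^ p * h₁ i x)
      (e₂ : ∀ i, ∀ᶠ x in 𝓝 (0 : ℂ × ℂ), c i (blInf x) = x.2 ^ p * h₂ i x)
      (t₁ : WTree M₁ M₂ (lin M₁ h₁)) (t₂ : WTree M₁ M₂ (lin M₂ h₂)) : WTree M₁ M₂ c

theorem WTree.cop {M₁ M₂ : Matrix ι ι ℂ} {c : ι → ℂ × ℂ → ℂ} (h : WTree M₁ M₂ c) : CopW c := by
  cases h with
  | leaf h _ => exact h
  | blow p h _ _ _ _ _ _ => exact h

theorem lin_an {M : Matrix ι ι ℂ} {h : ι → ℂ × ℂ → ℂ} {x : ℂ × ℂ} (hh : ∀ i, AnalyticAt ℂ (h i) x) (j : ι) : AnalyticAt ℂ (lin M h j) x := by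
  unfold lin
  exact Finset.analyticAt_fun_sum _ fun i _ => analyticAt_const.mul (hh i)

/-- the order of the tuple on a line -/
def zw (a : ι → ℂ → ℂ) : ℕ∞ := ⨅ i, analyticOrderAt (a i) 0

theorem zw_ne_top_iff {a : ι → ℂ → ℂ} : zw a ≠ ⊤ ↔ ¬ ∀ᶠ s in 𝓝 (0 : ℂ), ∀ i, a i s = 0 := by
  rw [Ne, zw, iInf_eq_top, Filter.eventually_all]
  simp only [analyticOrderAt_eq_top]

theorem natCast_le_order {f : ℂ → ℂ} (hf : AnalyticAt ℂ f 0) {k : ℕ} :
    (k : ℕ∞) ≤ analyticOrderAt f 0 ↔ ∃ g, AnalyticAt ℂ g 0 ∧ ∀ᶠ s in 𝓝 (0 : ℂ), f s = s ^ k * g s := by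
  rw [natCast_le_analyticOrderAt hf]
  simp only [sub_zero, smul_eq_mul]

theorem zw_le_lin {a : ι → ℂ → ℂ} (ha : ∀ i, AnalyticAt ℂ (a i) 0) {M N : Matrix ι ι ℂ} [DecidableEq ι] (hN : N * M = 1) :
    zw (fun j s => ∑ i, M j i * a i s) ≤ zw a := by
  refine le_iInf fun i => ?_
  have hb : ∀ j, AnalyticAt ℂ (fun s => ∑ i, M j i * a i s) 0 := fun j =>
    Finset.analyticAt_fun_sum _ fun i _ => analyticAt_const.mul (ha i)
  have hi : a i = fun s => ∑ j, N i j * ∑ k, M j k * a k s := by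
    funext s
    have h1 : ∑ j, N i j * ∑ k, M j k * a k s = ∑ k, (N * M) i k * a k s := by
      simp only [Matrix.mul_apply, Finset.mul_sum, Finset.sum_mul]
      rw [Finset.sum_comm]
      refine Finset.sum_congr rfl fun k _ => Finset.sum_congr rfl fun j _ => by ring
    rw [h1, hN]
    simp [Matrix.one_apply]
  refine ENat.forall_natCast_le_iff_le.1 fun k hk => ?_
  have h1 : ∀ j, ∃ g, AnalyticAt ℂ g 0 ∧ ∀ᶠ s in 𝓝 (0 : ℂ), (∑ i, M j i * a i s) = s ^ k * g s := fun j =>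
    (natCast_le_order (hb j)).1 (hk.trans (iInf_le _ j))
  choose g hg1 hg2 using h1
  rw [natCast_le_order (ha i)]
  refine ⟨fun s => ∑ j, N i j * g j s, Finset.analyticAt_fun_sum _ fun j _ => analyticAt_const.mul (hg1 j), ?_⟩
  filter_upwards [Filter.eventually_all.2 hg2] with s hs
  rw [hi, Finset.mul_sum]
  refine Finset.sum_congr rfl fun j _ => ?_
  rw [hs j]
  ring

private theorem ax_an₁ {f : ℂ × ℂ → ℂ} (hf : AnalyticAt ℂ f 0) : AnalyticAt ℂ (fun s : ℂ => f (s, 0)) 0 := by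
  have h1 : AnalyticAt ℂ f ((fun s : ℂ => (s, (0 : ℂ))) 0) := hf
  exact AnalyticAt.comp (g := f) (f := fun s : ℂ => (s, (0 : ℂ))) h1 (analyticAt_id.prod analyticAt_const)

private theorem ax_an₂ {f : ℂ × ℂ → ℂ} (hf : AnalyticAt ℂ f 0) : AnalyticAt ℂ (fun s : ℂ => f (0, s)) 0 := by
  have h1 : AnalyticAt ℂ f ((fun s : ℂ => ((0 : ℂ), s)) 0) := hf
  exact AnalyticAt.comp (g := f) (f := fun s : ℂ => ((0 : ℂ), s)) h1 (analyticAt_const.prod analyticAt_id)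

private theorem tend₁ : Tendsto (fun s : ℂ => (s, (0 : ℂ))) (𝓝 0) (𝓝 0) := (Continuous.prodMk_left (0 : ℂ)).tendsto' _ _ rfl

private theorem tend₂ : Tendsto (fun s : ℂ => ((0 : ℂ), s)) (𝓝 0) (𝓝 0) := (Continuous.prodMk_right (0 : ℂ)).tendsto' _ _ rfl

theorem zw_div {a h : ι → ℂ → ℂ} (hh : ∀ i, AnalyticAt ℂ (h i) 0) {p z : ℕ} (hz : zw a = (z : ℕ∞)) (hpz : p ≤ z)
    (he : ∀ i, ∀ᶠ s in 𝓝 (0 : ℂ), a i s = s ^ p * h i s) : zw h = ((z - p : ℕ) : ℕ∞) := by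
  have hne : Nonempty ι := by
    by_contra hcon
    rw [not_nonempty_iff] at hcon
    rw [zw, iInf_of_empty] at hz
    exact absurd hz (by simp)
  have h1 : ∀ i, analyticOrderAt (a i) 0 = (p : ℕ∞) + analyticOrderAt (h i) 0 := fun i => order_pow_mul (hh i) (he i)
  obtain ⟨i₀, hi₀⟩ : ∃ i, analyticOrderAt (a i) 0 = zw a := by
    rw [zw]
    obtain ⟨i, hi⟩ := exists_eq_ciInf_of_finite (f := fun i => analyticOrderAt (a i) 0)
    exact ⟨i, hi⟩
  refine le_antisymm ?_ ?_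
  · refine (iInf_le _ i₀).trans ?_
    have h2 : (z : ℕ∞) = (p : ℕ∞) + analyticOrderAt (h i₀) 0 := by rw [← h1, hi₀, hz]
    have h3 : analyticOrderAt (h i₀) 0 ≠ ⊤ := by
      intro h4
      rw [h4, add_top] at h2
      exact absurd h2 (by simp)
    obtain ⟨k, hk⟩ := ENat.ne_top_iff_exists.1 h3
    rw [← hk] at h2 ⊢
    have h5 : z = p + k := by exact_mod_cast h2
    exact_mod_cast (by omega : k ≤ z - p)
  · refine le_iInf fun i => ?_
    have h2 : (z : ℕ∞) ≤ (p : ℕ∞) + analyticOrderAt (h i) 0 := by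
      rw [← h1, ← hz]
      exact iInf_le _ i
    by_cases h3 : analyticOrderAt (h i) 0 = ⊤
    · rw [h3]
      exact le_top
    · obtain ⟨k, hk⟩ := ENat.ne_top_iff_exists.1 h3
      rw [← hk] at h2 ⊢
      have h5 : z ≤ p + k := by exact_mod_cast h2
      exact_mod_cast (by omega : z - p ≤ k)

theorem wtree_of_le [DecidableEq ι] {M₁ M₂ N₁ N₂ : Matrix ι ι ℂ} (hN₁ : N₁ * M₁ = 1) (hN₂ : N₂ * M₂ = 1) (n : ℕ) :
    ∀ {c : ι → ℂ × ℂ → ℂ}, (∀ i, AnalyticAt ℂ (c i) 0) →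
    zw (fun i s => c i (s, 0)) + zw (fun i s => c i (0, s)) ≤ (n : ℕ∞) → WTree M₁ M₂ c := by
  induction n using Nat.strong_induction_on with
  | _ n ih =>
  intro c hc hn
  have hz₁ : zw (fun i s => c i (s, 0)) ≠ ⊤ := by
    intro h0
    rw [h0, top_add] at hn
    exact absurd hn (by simp)
  have hz₂ : zw (fun i s => c i (0, s)) ≠ ⊤ := by
    intro h0
    rw [h0, add_top] at hn
    exact absurd hn (by simp)
  have hcop : CopW c := ⟨hc, zw_ne_top_iff.1 hz₁, zw_ne_top_iff.1 hz₂⟩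
  by_cases h0 : ∃ i, c i 0 ≠ 0
  · exact WTree.leaf hcop h0
  push Not at h0
  obtain ⟨z₁, hz₁'⟩ := ENat.ne_top_iff_exists.1 hz₁
  obtain ⟨z₂, hz₂'⟩ := ENat.ne_top_iff_exists.1 hz₂
  have hne : Nonempty ι := by
    by_contra hcon
    rw [not_nonempty_iff] at hcon
    rw [zw, iInf_of_empty] at hz₁'
    exact absurd hz₁' (by simp)
  have hO : ∀ {f : ℂ × ℂ → ℂ} {p : ℕ}, AnalyticAt ℂ f 0 → (f =O[𝓝 0] fun x => ‖x‖ ^ p) →
      (p : ℕ∞) ≤ analyticOrderAt (fun s => f (s, 0)) 0 ∧ (p : ℕ∞) ≤ analyticOrderAt (fun s => f (0, s)) 0 := by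
    intro f p hf hfO
    obtain ⟨_, h1, ⟨h, h2, h3, _⟩, _⟩ := ord_blow hf hfO
    obtain ⟨h', h4, h5, _⟩ := h1 0
    constructor
    · rw [order_pow_mul (ax_an₁ h4) (p := p)]
      · exact le_self_add
      · filter_upwards [tend₁.eventually h5] with s hs
        simpa [bl] using hs
    · rw [order_pow_mul (ax_an₂ h2) (p := p)]
      · exact le_self_add
      · filter_upwards [tend₂.eventually h3] with s hs
        simpa [blInf] using hs
  obtain ⟨p, hp1, hpO, hpn⟩ : ∃ p : ℕ, 1 ≤ p ∧ (∀ i, c i =O[𝓝 0] fun x => ‖x‖ ^ p) ∧ ¬ ∀ i, c i =O[𝓝 0] fun x => ‖x‖ ^ (p + 1) := by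
    by_contra hcon
    push Not at hcon
    have hall : ∀ p : ℕ, ∀ i, c i =O[𝓝 0] fun x => ‖x‖ ^ (p + 1) := by
      intro p
      induction p with
      | zero => exact fun i => isBigO_norm_of_zero (hc i) (h0 i)
      | succ p ihp => exact hcon (p + 1) (by omega) ihp
    have h3 : ((z₁ + 1 : ℕ) : ℕ∞) ≤ zw (fun i s => c i (s, 0)) := le_iInf fun i => (hO (hc i) (hall z₁ i)).1
    rw [← hz₁'] at h3
    have h4 : z₁ + 1 ≤ z₁ := by exact_mod_cast h3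
    omega
  have hbl := fun i => ord_blow (hc i) (hpO i)
  choose γ hγ1 hγ2 hγ3 using hbl
  have hne2 : ∃ i, ∃ j ≤ p, γ i j ≠ 0 := by
    by_contra hcon
    push Not at hcon
    exact hpn fun i => hγ3 i fun j hj => hcon i j hj
  have hγ1' := fun i => hγ1 i 0
  choose h₁ ha1 ha2 ha3 using hγ1'
  choose h₂ hb1 hb2 hb3 using hγ2
  have hp₁ : p ≤ z₁ := by
    have h1 : (p : ℕ∞) ≤ zw (fun i s => c i (s, 0)) := le_iInf fun i => (hO (hc i) (hpO i)).1
    rw [← hz₁'] at h1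
    exact_mod_cast h1
  have hp₂ : p ≤ z₂ := by
    have h1 : (p : ℕ∞) ≤ zw (fun i s => c i (0, s)) := le_iInf fun i => (hO (hc i) (hpO i)).2
    rw [← hz₂'] at h1
    exact_mod_cast h1
  have hsum : z₁ + z₂ ≤ n := by
    rw [← hz₁', ← hz₂'] at hn
    exact_mod_cast hn
  have e1 : zw (fun i s => h₁ i (s, 0)) = ((z₁ - p : ℕ) : ℕ∞) := by
    refine zw_div (fun i => ax_an₁ (ha1 i)) hz₁'.symm hp₁ fun i => ?_
    filter_upwards [tend₁.eventually (ha2 i)] with s hs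
    simpa [bl] using hs
  have e2 : zw (fun i s => h₂ i (0, s)) = ((z₂ - p : ℕ) : ℕ∞) := by
    refine zw_div (fun i => ax_an₂ (hb1 i)) hz₂'.symm hp₂ fun i => ?_
    filter_upwards [tend₂.eventually (hb2 i)] with s hs
    simpa [blInf] using hs
  obtain ⟨i₀, hi₀⟩ := hne2
  have e3 : zw (fun i s => h₁ i (0, s)) ≤ (p : ℕ∞) := by
    refine (iInf_le _ i₀).trans ?_
    rw [analyticOrderAt_congr (g := fun w : ℂ => hpol (γ i₀) p 1 w) ?_]
    · exact ord_hpol hi₀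
    · filter_upwards [ha3 i₀] with w hw
      rw [hw, zero_add]
  have e4 : zw (fun i s => h₂ i (s, 0)) ≤ (p : ℕ∞) := by
    have hsw : ∃ j ≤ p, (fun j => γ i₀ (p - j)) j ≠ 0 := by
      obtain ⟨j, hj, hε⟩ := hi₀
      exact ⟨p - j, by omega, by simpa [show p - (p - j) = j by omega] using hε⟩
    refine (iInf_le _ i₀).trans ?_
    rw [analyticOrderAt_congr (g := fun w : ℂ => hpol (fun j => γ i₀ (p - j)) p 1 w) ?_]
    · exact ord_hpol hsw
    · filter_upwards [hb3 i₀] with w hw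
      rw [hw, hpol_swap]
  refine WTree.blow p hcop ha1 hb1 ha2 hb2 ?_ ?_
  · refine ih (z₁ - p + p) (by omega) (fun j => lin_an ha1 j) ?_
    rw [Nat.cast_add]
    refine add_le_add ?_ ?_
    · rw [← e1]
      exact zw_le_lin (a := fun i s => h₁ i (s, 0)) (fun i => ax_an₁ (ha1 i)) hN₁
    · exact (zw_le_lin (a := fun i s => h₁ i (0, s)) (fun i => ax_an₂ (ha1 i)) hN₁).trans e3
  · refine ih (p + (z₂ - p)) (by omega) (fun j => lin_an hb1 j) ?_
    rw [Nat.cast_add]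
    refine add_le_add ?_ ?_
    · exact (zw_le_lin (a := fun i s => h₂ i (s, 0)) (fun i => ax_an₁ (hb1 i)) hN₂).trans e4
    · rw [← e2]
      exact zw_le_lin (a := fun i s => h₂ i (0, s)) (fun i => ax_an₂ (hb1 i)) hN₂

/-- **corner resolution for tuples** -/
theorem exists_wtree [DecidableEq ι] {M₁ M₂ N₁ N₂ : Matrix ι ι ℂ} (hN₁ : N₁ * M₁ = 1) (hN₂ : N₂ * M₂ = 1) {c : ι → ℂ × ℂ → ℂ} (h : CopW c) :
    WTree M₁ M₂ c := by
  obtain ⟨z₁, hz₁⟩ := ENat.ne_top_iff_exists.1 (zw_ne_top_iff.2 h.ax₁)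
  obtain ⟨z₂, hz₂⟩ := ENat.ne_top_iff_exists.1 (zw_ne_top_iff.2 h.ax₂)
  refine wtree_of_le hN₁ hN₂ (z₁ + z₂) h.an ?_
  rw [← hz₁, ← hz₂]
  exact_mod_cast le_rfl

end Pool.Agent.MW
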